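import Mathlib

/-!
# Perfect codes in generalized Fibonacci cubes

`Γ_n(1^s)` is the subgraph of the hypercube `Q_n` induced by the binary strings of length `n` without
the substring `1^s`. For `n ≥ 3` and `s ≥ 2` every perfect code of `Γ_n(1^s)` is a perfect code of
`Q_n`, `n + 1` is a power of two and `n < 2 s`.
-/

set_option autoImplicit false

namespace Pool.Agent.Results.MP_87e4a0_co.OnlyHypercubeCodes

/-- The hypercube `Q_n`: two strings are adjacent iff they differ in exactly one position. -/
def cube (n : ℕ) : SimpleGraph (Fin n → Bool) where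
  Adj x y := ∃! i, x i ≠ y i
  symm := ⟨by
    rintro x y ⟨i, hi, hu⟩
    exact ⟨i, fun h => hi h.symm, fun j hj => hu j (fun h => hj h.symm)⟩⟩
  loopless := ⟨by
    rintro x ⟨i, hi, -⟩
    exact hi rfl⟩

/-- The string `x` contains `1^s` as a substring. -/
def HasRun {n : ℕ} (s : ℕ) (x : Fin n → Bool) : Prop :=
  ∃ a : ℕ, a + s ≤ n ∧ ∀ i : Fin n, a ≤ (i : ℕ) → (i : ℕ) < a + s → x i = true

/-- The generalized Fibonacci cube `Γ_n(1^s)`: the subgraph of `Q_n` induced by the strings that do
not contain `1^s`. -/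
def fibCube (n s : ℕ) : SimpleGraph {x : Fin n → Bool // ¬ HasRun s x} :=
  (cube n).comap Subtype.val

/-- `C` is a perfect code of `G`: every vertex is in the closed neighbourhood of exactly one element
of `C`. -/
def IsPerfectCode {V : Type} (G : SimpleGraph V) (C : Set V) : Prop :=
  ∀ v : V, ∃! c : V, c ∈ C ∧ (v = c ∨ G.Adj c v)

section work

variable {n : ℕ}

/-- the string with position `i` changed -/
def fl (x : Fin n → Bool) (i : Fin n) : Fin n → Bool := Function.update x i (!x i)

theorem fl_same (x : Fin n → Bool) (i : Fin n) : fl x i i = !x i := by simp [fl]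

theorem fl_ne (x : Fin n → Bool) {i j : Fin n} (h : j ≠ i) : fl x i j = x j := by
  simp [fl, h]

theorem fl_fl (x : Fin n → Bool) (i : Fin n) : fl (fl x i) i = x := by
  funext j
  by_cases h : j = i
  · subst h; simp [fl_same]
  · rw [fl_ne _ h, fl_ne _ h]

theorem fl_comm (x : Fin n → Bool) (i j : Fin n) : fl (fl x i) j = fl (fl x j) i := by
  funext k
  by_cases hij : i = j
  · subst hij; rfl
  · by_cases h1 : k = i
    · subst h1
      rw [fl_ne _ hij, fl_same, fl_same, fl_ne _ hij]
    · by_cases h2 : k = j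
      · subst h2
        rw [fl_same, fl_ne _ h1, fl_ne _ h1, fl_same]
      · rw [fl_ne _ h2, fl_ne _ h1, fl_ne _ h1, fl_ne _ h2]

theorem fl_ne_self (x : Fin n → Bool) (i : Fin n) : fl x i ≠ x := by
  intro h
  have := congrFun h i
  rw [fl_same] at this
  cases hx : x i <;> simp [hx] at this

theorem fl_inj (x : Fin n → Bool) {i j : Fin n} (h : fl x i = fl x j) : i = j := by
  by_contra hij
  have := congrFun h i
  rw [fl_same, fl_ne _ hij] at this
  cases hx : x i <;> simp [hx] at this

theorem adj_iff (x y : Fin n → Bool) : (cube n).Adj x y ↔ ∃ i, y = fl x i := by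
  constructor
  · rintro ⟨i, hi, hu⟩
    refine ⟨i, ?_⟩
    funext j
    by_cases h : j = i
    · subst h
      rw [fl_same]
      cases hx : x j <;> cases hy : y j <;> simp_all
    · rw [fl_ne _ h]
      by_contra hne
      exact h (hu j (fun h' => hne h'.symm))
  · rintro ⟨i, rfl⟩
    refine ⟨i, ?_, ?_⟩
    · show x i ≠ fl x i i
      rw [fl_same]
      cases x i <;> simp
    · intro j hj
      by_contra hne
      exact hj (fl_ne x hne).symm

theorem run_mono {s : ℕ} {x y : Fin n → Bool} (h : ∀ i, x i = true → y i = true)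
    (hx : HasRun s x) : HasRun s y := by
  obtain ⟨a, ha, hr⟩ := hx
  exact ⟨a, ha, fun i h1 h2 => h i (hr i h1 h2)⟩

/-- covered by the code `K` in `Q_n` -/
def Cov (K : (Fin n → Bool) → Prop) (v : Fin n → Bool) : Prop :=
  ∃ c, K c ∧ (v = c ∨ ∃ i, v = fl c i)

/-- a perfect code of the generalized Fibonacci cube, as a set of strings -/
structure PC (s : ℕ) (K : (Fin n → Bool) → Prop) : Prop where
  sub : ∀ c, K c → ¬ HasRun s c
  cov : ∀ v, ¬ HasRun s v → Cov K v
  uniq : ∀ v, ¬ HasRun s v → ∀ c c', K c → K c' → (v = c ∨ ∃ i, v = fl c i) →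
    (v = c' ∨ ∃ i, v = fl c' i) → c = c'

variable {s : ℕ} {K : (Fin n → Bool) → Prop}

theorem PC.pack1 (h : PC s K) {c : Fin n → Bool} (hc : K c) (i : Fin n) : ¬ K (fl c i) := by
  intro hc'
  have := h.uniq c (h.sub c hc) c (fl c i) hc hc' (Or.inl rfl) (Or.inr ⟨i, (fl_fl c i).symm⟩)
  exact fl_ne_self c i this.symm

theorem fl_fl_ne_self (x : Fin n → Bool) {i j : Fin n} (h : i ≠ j) : fl (fl x i) j ≠ x := by
  intro h'
  have := congrFun h' i
  rw [fl_ne _ h, fl_same] at this
  cases hx : x i <;> simp [hx] at this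

theorem PC.pack2_aux (h : PC s K) {c : Fin n → Bool} (hc : K c) {i j : Fin n} (hij : i ≠ j)
    (hc' : K (fl (fl c i) j)) (hr : ¬ HasRun s (fl c i)) : False := by
  have := h.uniq (fl c i) hr c (fl (fl c i) j) hc hc' (Or.inr ⟨i, rfl⟩)
    (Or.inr ⟨j, (fl_fl _ j).symm⟩)
  exact fl_fl_ne_self c hij this.symm

theorem PC.pack2 (h : PC s K) {c : Fin n → Bool} (hc : K c) {i j : Fin n} (hij : i ≠ j) :
    ¬ K (fl (fl c i) j) := by
  intro hc'
  by_cases h1 : HasRun s (fl c i)
  · -- then `c i = false`
    have hci : c i = false := by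
      by_contra hne
      rw [Bool.not_eq_false] at hne
      refine h.sub c hc (run_mono ?_ h1)
      intro k hk
      by_cases hki : k = i
      · subst hki; exact hne
      · rwa [fl_ne _ hki] at hk
    have hcj : c j = true := by
      by_contra hne
      rw [Bool.not_eq_true] at hne
      refine h.sub _ hc' (run_mono ?_ h1)
      intro k hk
      by_cases hkj : k = j
      · subst hkj
        rw [fl_same, fl_ne _ hij.symm, hne]
        rfl
      · rwa [fl_ne _ hkj]
    refine h.pack2_aux hc hij.symm (by rw [fl_comm]; exact hc') ?_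
    intro hr
    refine h.sub c hc (run_mono ?_ hr)
    intro k hk
    by_cases hkj : k = j
    · subst hkj; exact hcj
    · rwa [fl_ne _ hkj] at hk
  · exact h.pack2_aux hc hij hc' h1

open Classical in
/-- the positions whose change leads to an uncovered string -/
noncomputable def unc (K : (Fin n → Bool) → Prop) (y : Fin n → Bool) : Finset (Fin n) :=
  Finset.univ.filter fun j => ¬ Cov K (fl y j)

theorem PC.unc_of_code (_h : PC s K) {y : Fin n → Bool} (hy : K y) : unc K y = ∅ := by
  classical
  unfold unc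
  rw [Finset.filter_eq_empty_iff]
  intro j _
  rw [not_not]
  exact ⟨y, hy, Or.inr ⟨j, rfl⟩⟩

/-- the parity lemma -/
theorem PC.parity (h : PC s K) {y : Fin n → Bool} (hr : ¬ HasRun s y) (hy : ¬ K y) :
    ((unc K y).card + 1 : ZMod 2) = (n : ZMod 2) := by
  classical
  obtain ⟨c, hc, hyc⟩ := h.cov y hr
  have hyc' : ∃ i, c = fl y i := by
    rcases hyc with rfl | ⟨i, hi⟩
    · exact absurd hc hy
    · exact ⟨i, by rw [hi, fl_fl]⟩
  obtain ⟨i, rfl⟩ := hyc'
  -- the covered neighbours other than `i`
  have hpart : ∀ j, j ≠ i → Cov K (fl y j) → ∃ k, k ≠ j ∧ k ≠ i ∧ K (fl (fl y j) k) := by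
    intro j hji ⟨c', hc', hcov⟩
    rcases hcov with h1 | ⟨k, hk⟩
    · exfalso
      rw [← h1] at hc'
      have h2 : fl y j = fl (fl (fl y i) i) j := by rw [fl_fl]
      rw [h2] at hc'
      exact h.pack2 hc (Ne.symm hji) hc'
    · have h2 : c' = fl (fl y j) k := by rw [hk, fl_fl]
      refine ⟨k, ?_, ?_, h2 ▸ hc'⟩
      · rintro rfl
        rw [fl_fl] at h2
        exact hy (h2 ▸ hc')
      · rintro rfl
        rw [fl_comm] at h2
        exact h.pack1 hc j (h2 ▸ hc')
  have huniq : ∀ j k k', j ≠ i → K (fl (fl y j) k) → K (fl (fl y j) k') → k = k' := by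
    intro j k k' _ h1 h2
    by_contra hne
    have h3 : fl (fl y j) k' = fl (fl (fl (fl y j) k) k) k' := by rw [fl_fl]
    rw [h3] at h2
    exact h.pack2 h1 hne h2
  set T : Finset (Fin n) := Finset.univ.filter fun j => j ≠ i ∧ Cov K (fl y j) with hT
  have hTsum : ∑ _j ∈ T, (1 : ZMod 2) = 0 := by
    refine Finset.sum_involution (fun j hj => Classical.choose
      (hpart j (Finset.mem_filter.1 hj).2.1 (Finset.mem_filter.1 hj).2.2)) ?_ ?_ ?_ ?_
    · intro j hj
      exact CharTwo.add_self_eq_zero _
    · intro j hj _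
      exact (Classical.choose_spec
        (hpart j (Finset.mem_filter.1 hj).2.1 (Finset.mem_filter.1 hj).2.2)).1
    · intro j hj
      obtain ⟨h1, h2, h3⟩ := Classical.choose_spec
        (hpart j (Finset.mem_filter.1 hj).2.1 (Finset.mem_filter.1 hj).2.2)
      refine Finset.mem_filter.2 ⟨Finset.mem_univ _, h2, _, h3, Or.inr ⟨j, ?_⟩⟩
      rw [fl_comm, fl_fl]
    · intro j hj
      obtain ⟨h1, h2, h3⟩ := Classical.choose_spec
        (hpart j (Finset.mem_filter.1 hj).2.1 (Finset.mem_filter.1 hj).2.2)
      set k := Classical.choose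
        (hpart j (Finset.mem_filter.1 hj).2.1 (Finset.mem_filter.1 hj).2.2) with hk
      have hkm : k ∈ T := Finset.mem_filter.2 ⟨Finset.mem_univ _, h2, _, h3, Or.inr ⟨j, by
        rw [fl_comm, fl_fl]⟩⟩
      obtain ⟨g1, g2, g3⟩ := Classical.choose_spec
        (hpart k (Finset.mem_filter.1 hkm).2.1 (Finset.mem_filter.1 hkm).2.2)
      exact huniq k _ _ h2 g3 (by rw [fl_comm]; exact h3)
  have hcard : T.card + ((unc K y).card + 1) = n := by
    have h1 : Disjoint T (unc K y) := by
      rw [Finset.disjoint_left]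
      intro j hj hj'
      exact (Finset.mem_filter.1 hj').2 (Finset.mem_filter.1 hj).2.2
    have h2 : i ∉ T ∪ unc K y := by
      rw [Finset.mem_union]
      rintro (h' | h')
      · exact (Finset.mem_filter.1 h').2.1 rfl
      · exact (Finset.mem_filter.1 h').2 ⟨_, hc, Or.inl rfl⟩
    have h3 : insert i (T ∪ unc K y) = Finset.univ := by
      ext j
      simp only [Finset.mem_insert, Finset.mem_union, Finset.mem_univ, iff_true]
      by_cases hji : j = i
      · exact Or.inl hji
      · by_cases hcv : Cov K (fl y j)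
        · exact Or.inr (Or.inl (Finset.mem_filter.2 ⟨Finset.mem_univ _, hji, hcv⟩))
        · exact Or.inr (Or.inr (Finset.mem_filter.2 ⟨Finset.mem_univ _, hcv⟩))
    have h4 := congrArg Finset.card h3
    rw [Finset.card_insert_of_notMem h2, Finset.card_union_of_disjoint h1, Finset.card_univ,
      Fintype.card_fin] at h4
    omega
  have h5 : ((T.card : ℕ) : ZMod 2) = 0 := by
    rw [Finset.card_eq_sum_ones, Nat.cast_sum]
    simpa using hTsum
  have h6 := congrArg (Nat.cast : ℕ → ZMod 2) hcard
  push_cast at h6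
  rw [h5, zero_add] at h6
  exact h6

/-- for odd `n`: the only possible uncovered neighbour is covered -/
theorem PC.single (h : PC s K) (hn : Odd n) {y : Fin n → Bool} (hr : ¬ HasRun s y) (i : Fin n)
    (hi : ∀ j, HasRun s (fl y j) → j = i) : Cov K (fl y i) := by
  classical
  by_contra hcov
  have h1 : unc K y = {i} := by
    ext j
    rw [Finset.mem_singleton]
    constructor
    · intro hj
      refine hi j ?_
      by_contra hnr
      exact (Finset.mem_filter.1 hj).2 (h.cov _ hnr)
    · rintro rfl
      exact Finset.mem_filter.2 ⟨Finset.mem_univ _, hcov⟩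
  by_cases hy : K y
  · rw [h.unc_of_code hy] at h1
    exact absurd h1.symm (Finset.singleton_ne_empty i)
  · have h2 := h.parity hr hy
    rw [h1, Finset.card_singleton] at h2
    obtain ⟨m, hm⟩ := hn
    rw [hm] at h2
    push_cast at h2
    have h3 : (2 : ZMod 2) = 0 := by decide
    rw [show (1 + 1 : ZMod 2) = 0 by decide, h3, zero_mul, zero_add] at h2
    exact absurd h2 (by decide)

/-- for even `n`: a string all of whose neighbours are in the generalized Fibonacci cube is a
codeword -/
theorem PC.even (h : PC s K) (hn : Even n) {y : Fin n → Bool} (hr : ¬ HasRun s y)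
    (hi : ∀ j, ¬ HasRun s (fl y j)) : K y := by
  classical
  by_contra hy
  have h1 : unc K y = ∅ := by
    unfold unc
    rw [Finset.filter_eq_empty_iff]
    intro j _
    rw [not_not]
    exact h.cov _ (hi j)
  have h2 := h.parity hr hy
  obtain ⟨m, hm⟩ := hn
  rw [h1, Finset.card_empty, hm] at h2
  push_cast at h2
  rw [CharTwo.add_self_eq_zero] at h2
  exact absurd h2 (by decide)

/-- all neighbours of a string with a run which contains the run have a run -/
theorem run_fl {x : Fin n → Bool} (hx : HasRun s x) {i : Fin n} (hi : x i = false) :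
    HasRun s (fl x i) := by
  refine run_mono ?_ hx
  intro k hk
  by_cases hki : k = i
  · subst hki; rw [hi] at hk; exact absurd hk (by decide)
  · rwa [fl_ne _ hki]

theorem PC.code_of_cov (h : PC s K) {x : Fin n → Bool} (hx : HasRun s x) (hc : Cov K x) :
    ∃ k, x k = true ∧ K (fl x k) := by
  obtain ⟨c, hc, h1 | ⟨k, hk⟩⟩ := hc
  · exact absurd (h1 ▸ hx) (h.sub c hc)
  · have h2 : c = fl x k := by rw [hk, fl_fl]
    refine ⟨k, ?_, h2 ▸ hc⟩
    by_contra hne
    rw [Bool.not_eq_true] at hne
    exact h.sub c hc (h2 ▸ run_fl hx hne)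

/-- the string with ones exactly at the positions below `t` -/
def w (n t : ℕ) : Fin n → Bool := fun i => decide ((i : ℕ) < t)

theorem hasRun_w (hsn : s ≤ n) : HasRun s (w n s) := by
  refine ⟨0, by omega, fun i _ h2 => ?_⟩
  simp only [w]
  exact decide_eq_true (by omega)

/-- the case of odd `n` smaller than `2 s` -/
theorem PC.small (h : PC s K) (hn : Odd n) (hs : 1 ≤ s) (hns : n < 2 * s) (v : Fin n → Bool) :
    Cov K v := by
  by_contra hv
  have hr : HasRun s v := by
    by_contra hr
    exact hv (h.cov v hr)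
  have hsn : s ≤ n := by
    obtain ⟨a, ha, -⟩ := hr
    omega
  have hmid : ∀ x : Fin n → Bool, HasRun s x → x ⟨s - 1, by omega⟩ = true := by
    rintro x ⟨a, ha, hx⟩
    exact hx _ (by simp only; omega) (by simp only; omega)
  set m : Fin n := ⟨s - 1, by omega⟩ with hm
  have hvm := hmid v hr
  have h1 : Cov K (fl (fl v m) m) := by
    refine h.single hn (fun hr' => ?_) m (fun j hj => ?_)
    · have := hmid _ hr'
      rw [fl_same, hvm] at this
      exact absurd this (by decide)
    · by_contra hne
      have := hmid _ hj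
      rw [fl_ne _ (Ne.symm hne), fl_same, hvm] at this
      exact absurd this (by decide)
  rw [fl_fl] at h1
  exact hv h1

theorem PC.cov_w (h : PC s K) (hn : Odd n) (hs : 2 ≤ s) (hsn : s ≤ n) : Cov K (w n s) := by
  have h1 : Cov K (fl (w n (s - 1)) ⟨s - 1, by omega⟩) := by
    refine h.single hn ?_ _ ?_
    · rintro ⟨a, ha, hx⟩
      have := hx ⟨a + s - 1, by omega⟩ (by simp only; omega) (by simp only; omega)
      simp only [w, decide_eq_true_eq] at this
      omega
    · rintro j ⟨a, ha, hx⟩
      have key : ∀ i : Fin n, a ≤ (i : ℕ) → (i : ℕ) < a + s → s - 1 ≤ (i : ℕ) → i = j := by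
        intro i h1 h2 h3
        by_contra hne
        have := hx i h1 h2
        rw [fl_ne _ hne] at this
        simp only [w, decide_eq_true_eq] at this
        omega
      have h1 := key ⟨a + s - 1, by omega⟩ (by simp only; omega) (by simp only; omega)
        (by simp only; omega)
      by_cases ha0 : a = 0
      · rw [← h1]
        ext
        simp only
        omega
      · have h2 := key ⟨a + s - 2, by omega⟩ (by simp only; omega) (by simp only; omega)
          (by simp only; omega)
        have h3 := h1.trans h2.symm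
        rw [Fin.mk.injEq] at h3
        omega
  have h2 : fl (w n (s - 1)) ⟨s - 1, by omega⟩ = w n s := by
    funext i
    by_cases hi : i = ⟨s - 1, by omega⟩
    · subst hi
      rw [fl_same]
      simp only [w]
      rw [decide_eq_false (by omega), decide_eq_true (by omega)]
      rfl
    · rw [fl_ne _ hi]
      simp only [w]
      have : (i : ℕ) ≠ s - 1 := fun h' => hi (Fin.ext h')
      by_cases h' : (i : ℕ) < s - 1
      · rw [decide_eq_true h', decide_eq_true (by omega)]
      · rw [decide_eq_false h', decide_eq_false (by omega)]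
  rwa [h2] at h1

theorem PC.cov_wj (h : PC s K) (hn : Odd n) (hs : 3 ≤ s) (hsn : s ≤ n) (j0 : Fin n)
    (hj0 : s ≤ (j0 : ℕ)) : Cov K (fl (w n s) j0) := by
  have hm : s - 1 < n := by omega
  have hyv : ∀ i : Fin n, fl (fl (w n s) j0) ⟨s - 1, hm⟩ i = true ↔
      ((i : ℕ) < s - 1 ∨ i = j0) := by
    intro i
    by_cases h1 : i = ⟨s - 1, hm⟩
    · subst h1
      rw [fl_same, fl_ne _ (by intro h'; rw [← h'] at hj0; simp only at hj0; omega)]
      simp only [w]
      rw [decide_eq_true (by omega)]
      simp only [Bool.not_true, Bool.false_eq_true, lt_self_iff_false, false_or, false_iff]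
      intro h'
      rw [← h'] at hj0
      simp only at hj0
      omega
    · rw [fl_ne _ h1]
      by_cases h2 : i = j0
      · subst h2
        rw [fl_same]
        simp only [w]
        rw [decide_eq_false (by omega)]
        simp
      · rw [fl_ne _ h2]
        simp only [w, decide_eq_true_eq]
        have : (i : ℕ) ≠ s - 1 := fun h' => h1 (Fin.ext h')
        constructor
        · intro h'; left; omega
        · rintro (h' | h')
          · omega
          · exact absurd h' h2
  have h1 : Cov K (fl (fl (fl (w n s) j0) ⟨s - 1, hm⟩) ⟨s - 1, hm⟩) := by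
    refine h.single hn ?_ _ ?_
    · rintro ⟨a, ha, hx⟩
      have e1 := (hyv _).1 (hx ⟨a + s - 1, by omega⟩ (by simp only; omega) (by simp only; omega))
      have e2 := (hyv _).1 (hx ⟨a + s - 2, by omega⟩ (by simp only; omega) (by simp only; omega))
      simp only at e1 e2
      rcases e1 with e1 | e1
      · omega
      · rcases e2 with e2 | e2
        · have : (j0 : ℕ) = a + s - 1 := by rw [← e1]
          omega
        · have := e1.trans e2.symm
          rw [Fin.mk.injEq] at this
          omega
    · rintro j ⟨a, ha, hx⟩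
      have key : ∀ i : Fin n, a ≤ (i : ℕ) → (i : ℕ) < a + s → s - 1 ≤ (i : ℕ) →
          i = j ∨ i = j0 := by
        intro i h1 h2 h3
        by_cases hne : i = j
        · exact Or.inl hne
        · have := hx i h1 h2
          rw [fl_ne _ hne] at this
          rcases (hyv i).1 this with h4 | h4
          · omega
          · exact Or.inr h4
      by_cases ha1 : a ≤ 1
      · rcases key ⟨s - 1, hm⟩ (by simp only; omega) (by simp only; omega) (by simp only; omega)
          with h1 | h1
        · exact h1.symm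
        · rw [← h1] at hj0
          simp only at hj0
          omega
      · have e1 := key ⟨a + s - 1, by omega⟩ (by simp only; omega) (by simp only; omega)
          (by simp only; omega)
        have e2 := key ⟨a + s - 2, by omega⟩ (by simp only; omega) (by simp only; omega)
          (by simp only; omega)
        have e3 := key ⟨a + s - 3, by omega⟩ (by simp only; omega) (by simp only; omega)
          (by simp only; omega)
        exfalso
        simp only [Fin.ext_iff] at e1 e2 e3
        omega
  rwa [fl_fl] at h1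

/-- for odd `n` and `s ≥ 3` one has `n < 2 s` -/
theorem PC.lt_of_odd (h : PC s K) (hn : Odd n) (hs : 3 ≤ s) : n < 2 * s := by
  classical
  by_contra hge
  rw [not_lt] at hge
  have hsn : s ≤ n := by omega
  obtain ⟨k0, hk0, hK0⟩ := h.code_of_cov (hasRun_w hsn) (h.cov_w hn (by omega) hsn)
  have hwj : ∀ j : Fin n, s ≤ (j : ℕ) → w n s j = false := by
    intro j hj
    simp only [w]
    exact decide_eq_false (by omega)
  have hex : ∀ j : Fin n, s ≤ (j : ℕ) → ∃ k : Fin n, (k : ℕ) < s ∧ K (fl (fl (w n s) j) k) := by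
    intro j hj
    obtain ⟨k, hk, hK⟩ := h.code_of_cov (run_fl (hasRun_w hsn) (hwj j hj))
      (h.cov_wj hn hs hsn j hj)
    refine ⟨k, ?_, hK⟩
    by_contra hks
    by_cases hkj : k = j
    · subst hkj
      rw [fl_fl] at hK
      exact h.sub _ hK (hasRun_w hsn)
    · rw [fl_ne _ hkj, hwj k (by omega)] at hk
      exact absurd hk (by decide)
  choose! f hf1 hf2 using hex
  have hk0' : (k0 : ℕ) < s := by
    simp only [w, decide_eq_true_eq] at hk0
    exact hk0
  have hinj : ∀ j : Fin n, s ≤ (j : ℕ) → f j ≠ k0 := by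
    intro j hj he
    have := hf2 j hj
    rw [he, fl_comm] at this
    exact h.pack1 hK0 j this
  have hinj2 : ∀ j j' : Fin n, s ≤ (j : ℕ) → s ≤ (j' : ℕ) → f j = f j' → j = j' := by
    intro j j' hj hj' he
    by_contra hne
    have h1 := hf2 j hj
    have h2 := hf2 j' hj'
    have h3 : fl (fl (w n s) j') (f j') = fl (fl (fl (fl (w n s) j) (f j)) j) j' := by
      rw [he, fl_comm (fl (w n s) j) (f j') j, fl_fl, fl_comm]
    rw [h3] at h2
    exact h.pack2 h1 hne h2
  have hcard := Finset.card_le_card_of_injOn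
    (s := Finset.univ.filter fun j : Fin n => s ≤ (j : ℕ))
    (t := (Finset.univ.filter fun k : Fin n => (k : ℕ) < s).erase k0) f
    (fun j hj => by
      have hj' := (Finset.mem_filter.1 (Finset.mem_coe.1 hj)).2
      exact Finset.mem_coe.2 (Finset.mem_erase.2 ⟨hinj j hj',
        Finset.mem_filter.2 ⟨Finset.mem_univ _, hf1 j hj'⟩⟩))
    (fun j hj j' hj' he => hinj2 j j' (Finset.mem_filter.1 (Finset.mem_coe.1 hj)).2
      (Finset.mem_filter.1 (Finset.mem_coe.1 hj')).2 he)
  have hmem : k0 ∈ (Finset.univ.filter fun k : Fin n => (k : ℕ) < s) :=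
    Finset.mem_filter.2 ⟨Finset.mem_univ _, hk0'⟩
  rw [Finset.card_erase_of_mem hmem] at hcard
  have h1 : (Finset.univ.filter fun k : Fin n => (k : ℕ) < s).card = s := by
    rw [Fin.card_filter_val_lt]
    omega
  have h2 : (Finset.univ.filter fun j : Fin n => s ≤ (j : ℕ)).card + s = n := by
    have h3 := Finset.card_filter_add_card_filter_not (s := (Finset.univ : Finset (Fin n)))
      (fun k : Fin n => (k : ℕ) < s)
    rw [h1, Finset.card_univ, Fintype.card_fin] at h3
    simp only [not_lt] at h3
    omega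
  rw [h1] at hcard
  omega

/-- the zero string -/
def z (n : ℕ) : Fin n → Bool := fun _ => false

theorem z_fl {n : ℕ} (i k : Fin n) : fl (z n) i k = true ↔ k = i := by
  by_cases h : k = i
  · subst h
    rw [fl_same]
    simp [z]
  · rw [fl_ne _ h]
    simp [z, h]

theorem z_fl_fl {n : ℕ} {i j : Fin n} (hij : i ≠ j) (k : Fin n) :
    fl (fl (z n) i) j k = true ↔ k = i ∨ k = j := by
  by_cases h : k = j
  · subst h
    rw [fl_same, fl_ne _ (Ne.symm hij)]
    simp [z]
  · rw [fl_ne _ h, z_fl]
    simp [h]

/-- the case `s = 2` for odd `n` -/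
theorem PC.lt_of_odd_two (h : PC 2 K) (hn : Odd n) : n < 2 * 2 := by
  by_contra hge
  rw [not_lt] at hge
  obtain ⟨k, hk, hK⟩ := h.code_of_cov (hasRun_w (by omega)) (h.cov_w hn le_rfl (by omega))
  -- the run at the right end
  have hrun : HasRun 2 (fl (fl (z n) ⟨n - 1, by omega⟩) ⟨n - 2, by omega⟩) := by
    refine ⟨n - 2, by omega, fun i h1 h2 => ?_⟩
    rw [z_fl_fl (by rw [Ne, Fin.mk.injEq]; omega)]
    simp only [Fin.ext_iff]
    omega
  have hcov : Cov K (fl (fl (z n) ⟨n - 1, by omega⟩) ⟨n - 2, by omega⟩) := by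
    refine h.single hn ?_ _ ?_
    · rintro ⟨a, ha, hx⟩
      have e1 := (z_fl _ _).1 (hx ⟨a, by omega⟩ (by simp only; omega) (by simp only; omega))
      have e2 := (z_fl _ _).1 (hx ⟨a + 1, by omega⟩ (by simp only; omega) (by simp only; omega))
      rw [Fin.mk.injEq] at e1 e2
      omega
    · rintro j ⟨a, ha, hx⟩
      by_cases hj : (⟨n - 1, by omega⟩ : Fin n) = j
      · subst hj
        rw [fl_fl] at hx
        have := hx ⟨a, by omega⟩ (by simp only; omega) (by simp only; omega)
        simp [z] at this
      · have e1 := (z_fl_fl hj _).1 (hx ⟨a, by omega⟩ (by simp only; omega) (by simp only; omega))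
        have e2 := (z_fl_fl hj _).1
          (hx ⟨a + 1, by omega⟩ (by simp only; omega) (by simp only; omega))
        simp only [Fin.ext_iff] at e1 e2 hj ⊢
        omega
  obtain ⟨k', hk', hK'⟩ := h.code_of_cov hrun hcov
  -- both codewords have weight one
  have hc : ∃ i : Fin n, (i : ℕ) < 2 ∧ K (fl (z n) i) := by
    have hk2 : (k : ℕ) < 2 := by
      simp only [w, decide_eq_true_eq] at hk
      exact hk
    refine ⟨⟨1 - (k : ℕ), by omega⟩, by simp only; omega, ?_⟩
    have he : fl (w n 2) k = fl (z n) ⟨1 - (k : ℕ), by omega⟩ := by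
      funext i
      rw [Bool.eq_iff_iff, z_fl]
      by_cases hik : i = k
      · subst hik
        rw [fl_same]
        simp only [w, Fin.ext_iff]
        rw [decide_eq_true (by omega)]
        simp only [Bool.not_true, Bool.false_eq_true, false_iff]
        omega
      · rw [fl_ne _ hik]
        simp only [w, decide_eq_true_eq, Fin.ext_iff] at hik ⊢
        omega
    rwa [he] at hK
  have hc' : ∃ i : Fin n, n - 2 ≤ (i : ℕ) ∧ K (fl (z n) i) := by
    rw [z_fl_fl (by rw [Ne, Fin.mk.injEq]; omega)] at hk'
    rcases hk' with hk' | hk'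
    · subst hk'
      rw [fl_comm (fl (z n) ⟨n - 1, by omega⟩) ⟨n - 2, by omega⟩ ⟨n - 1, by omega⟩, fl_fl] at hK'
      exact ⟨⟨n - 2, by omega⟩, by simp only; omega, hK'⟩
    · subst hk'
      rw [fl_fl] at hK'
      exact ⟨⟨n - 1, by omega⟩, by simp only; omega, hK'⟩
  obtain ⟨i, hi, hKi⟩ := hc
  obtain ⟨j, hj, hKj⟩ := hc'
  have hij : i ≠ j := by
    rintro rfl
    omega
  have he : fl (z n) j = fl (fl (fl (z n) i) i) j := by rw [fl_fl]
  rw [he] at hKj
  exact h.pack2 hKi hij hKj

/-- no perfect codes for even `n` -/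
theorem PC.not_even (h : PC s K) (hn : Even n) (hn3 : 3 ≤ n) (hs : 2 ≤ s) : False := by
  classical
  have h1 : ∀ i : Fin n, ¬ HasRun s (fl (z n) i) := by
    rintro i ⟨a, ha, hx⟩
    have e1 := (z_fl _ _).1 (hx ⟨a, by omega⟩ (by simp only; omega) (by simp only; omega))
    have e2 := (z_fl _ _).1 (hx ⟨a + 1, by omega⟩ (by simp only; omega) (by simp only; omega))
    rw [← e2, Fin.mk.injEq] at e1
    omega
  have hz : K (z n) := by
    refine h.even hn ?_ h1
    rintro ⟨a, ha, hx⟩
    have := hx ⟨a, by omega⟩ (by simp only; omega) (by simp only; omega)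
    simp [z] at this
  by_cases hs3 : 3 ≤ s
  · refine h.pack1 hz ⟨0, by omega⟩ (h.even hn (h1 _) (fun j => ?_))
    by_cases hj : (⟨0, by omega⟩ : Fin n) = j
    · subst hj
      rw [fl_fl]
      exact h.sub _ hz
    · rintro ⟨a, ha, hx⟩
      have e1 := (z_fl_fl hj _).1 (hx ⟨a, by omega⟩ (by simp only; omega) (by simp only; omega))
      have e2 := (z_fl_fl hj _).1 (hx ⟨a + 1, by omega⟩ (by simp only; omega) (by simp only; omega))
      have e3 := (z_fl_fl hj _).1 (hx ⟨a + 2, by omega⟩ (by simp only; omega) (by simp only; omega))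
      simp only [Fin.ext_iff] at e1 e2 e3
      omega
  · obtain rfl : s = 2 := by omega
    have hn4 : 4 ≤ n := by
      obtain ⟨m, hm⟩ := hn
      omega
    -- the string with a one at position `1`
    have hunc : unc K (fl (z n) ⟨1, by omega⟩) = {⟨0, by omega⟩, ⟨2, by omega⟩} := by
      ext j
      rw [Finset.mem_insert, Finset.mem_singleton]
      constructor
      · intro hj
        have hj' := (Finset.mem_filter.1 hj).2
        have hr : HasRun 2 (fl (fl (z n) ⟨1, by omega⟩) j) := by
          by_contra hr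
          exact hj' (h.cov _ hr)
        by_cases hj1 : (⟨1, by omega⟩ : Fin n) = j
        · subst hj1
          rw [fl_fl] at hr
          exact absurd hr (h.sub _ hz)
        · obtain ⟨a, ha, hx⟩ := hr
          have e1 := (z_fl_fl hj1 _).1
            (hx ⟨a, by omega⟩ (by simp only; omega) (by simp only; omega))
          have e2 := (z_fl_fl hj1 _).1
            (hx ⟨a + 1, by omega⟩ (by simp only; omega) (by simp only; omega))
          simp only [Fin.ext_iff] at e1 e2 hj1 ⊢
          omega
      · intro hj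
        refine Finset.mem_filter.2 ⟨Finset.mem_univ _, fun hcov => ?_⟩
        have hj1 : (⟨1, by omega⟩ : Fin n) ≠ j := by
          rintro rfl
          simp only [Fin.ext_iff] at hj
          omega
        have hr : HasRun 2 (fl (fl (z n) ⟨1, by omega⟩) j) := by
          rcases hj with rfl | rfl
          · refine ⟨0, by omega, fun i g1 g2 => ?_⟩
            rw [z_fl_fl hj1]
            simp only [Fin.ext_iff]
            omega
          · refine ⟨1, by omega, fun i g1 g2 => ?_⟩
            rw [z_fl_fl hj1]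
            simp only [Fin.ext_iff]
            omega
        obtain ⟨k, hk, hK⟩ := h.code_of_cov hr hcov
        rw [z_fl_fl hj1] at hk
        rcases hk with rfl | rfl
        · rw [fl_comm (z n), fl_fl] at hK
          exact h.pack1 hz _ hK
        · rw [fl_fl] at hK
          exact h.pack1 hz _ hK
    have hp := h.parity (h1 ⟨1, by omega⟩) (h.pack1 hz _)
    rw [hunc, Finset.card_pair (by rw [Ne, Fin.mk.injEq]; omega)] at hp
    obtain ⟨m, hm⟩ := hn
    have h2 : (n : ZMod 2) = 0 := by
      rw [hm]
      push_cast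
      exact CharTwo.add_self_eq_zero _
    rw [h2] at hp
    exact absurd hp (by decide)

theorem PC.main (h : PC s K) (hn3 : 3 ≤ n) (hs : 2 ≤ s) :
    Odd n ∧ n < 2 * s ∧ ∀ v, Cov K v := by
  have hn : Odd n := by
    by_contra he
    rw [Nat.not_odd_iff_even] at he
    exact h.not_even he hn3 hs
  have hlt : n < 2 * s := by
    by_cases hs3 : 3 ≤ s
    · exact h.lt_of_odd hn hs3
    · obtain rfl : s = 2 := by omega
      exact h.lt_of_odd_two hn
  exact ⟨hn, hlt, h.small hn (by omega) hlt⟩

theorem PC.uniq' (h : PC s K) (v c c' : Fin n → Bool) (hc : K c) (hc' : K c')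
    (h1 : v = c ∨ ∃ i, v = fl c i) (h2 : v = c' ∨ ∃ i, v = fl c' i) : c = c' := by
  rcases h1 with rfl | ⟨i, hi⟩
  · rcases h2 with rfl | ⟨j, hj⟩
    · rfl
    · rw [hj] at hc
      exact absurd hc (h.pack1 hc' j)
  · rcases h2 with rfl | ⟨j, hj⟩
    · rw [hi] at hc'
      exact absurd hc' (h.pack1 hc i)
    · have e1 : c' = fl (fl c i) j := by rw [← hi, hj, fl_fl]
      by_cases hij : i = j
      · subst hij
        rw [e1, fl_fl]
      · rw [e1] at hc'
        exact absurd hc' (h.pack2 hc hij)

theorem PC.power (h : PC s K) (hcov : ∀ v, Cov K v) : ∃ p, n = 2 ^ p - 1 := by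
  classical
  have hb : Function.Bijective (fun q : {c // K c} × Option (Fin n) =>
      (q.2.elim q.1.1 fun i => fl q.1.1 i : Fin n → Bool)) := by
    constructor
    · rintro ⟨⟨c, hc⟩, o⟩ ⟨⟨c', hc'⟩, o'⟩ he
      simp only at he
      have hcc : c = c' := by
        refine h.uniq' (o.elim c fun i => fl c i) c c' hc hc' ?_ ?_
        · cases o with
          | none => exact Or.inl rfl
          | some i => exact Or.inr ⟨i, rfl⟩
        · rw [he]
          cases o' with
          | none => exact Or.inl rfl
          | some i => exact Or.inr ⟨i, rfl⟩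
      subst hcc
      refine Prod.ext rfl ?_
      cases o with
      | none =>
        cases o' with
        | none => rfl
        | some i => exact absurd he.symm (fl_ne_self c i)
      | some i =>
        cases o' with
        | none => exact absurd he (fl_ne_self c i)
        | some j => exact congrArg some (fl_inj c he)
    · intro v
      obtain ⟨c, hc, h1 | ⟨i, hi⟩⟩ := hcov v
      · exact ⟨(⟨c, hc⟩, none), h1.symm⟩
      · exact ⟨(⟨c, hc⟩, some i), hi.symm⟩
  have hcard := Fintype.card_of_bijective hb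
  rw [Fintype.card_prod, Fintype.card_option, Fintype.card_fin, Fintype.card_fun,
    Fintype.card_bool, Fintype.card_fin] at hcard
  have hdvd : n + 1 ∣ 2 ^ n := ⟨_, by rw [← hcard]; ring⟩
  obtain ⟨p, -, hp⟩ := (Nat.dvd_prime_pow Nat.prime_two).1 hdvd
  exact ⟨p, by omega⟩

end work

theorem result (n s : ℕ) (hn : 3 ≤ n) (hs : 2 ≤ s)
    (C : Set {x : Fin n → Bool // ¬ HasRun s x}) (hC : IsPerfectCode (fibCube n s) C) :
    (∃ p : ℕ, n = 2 ^ p - 1) ∧ n < 2 * s ∧ IsPerfectCode (cube n) (Subtype.val '' C) := by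
  have hK : PC s (fun c : Fin n → Bool => c ∈ Subtype.val '' C) := by
    refine ⟨?_, ?_, ?_⟩
    · rintro c ⟨c', -, rfl⟩
      exact c'.2
    · intro v hv
      obtain ⟨c, ⟨hc, hvc⟩, -⟩ := hC ⟨v, hv⟩
      refine ⟨c.1, ⟨c, hc, rfl⟩, ?_⟩
      rcases hvc with rfl | hadj
      · exact Or.inl rfl
      · exact Or.inr ((adj_iff _ _).1 hadj)
    · rintro v hv _ _ ⟨c, hc, rfl⟩ ⟨c', hc', rfl⟩ h1 h2
      have hu := (hC ⟨v, hv⟩).unique
        (y₁ := c) (y₂ := c')
        ⟨hc, by
          rcases h1 with h1 | h1
          · exact Or.inl (Subtype.ext h1)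
          · exact Or.inr ((adj_iff _ _).2 h1)⟩
        ⟨hc', by
          rcases h2 with h2 | h2
          · exact Or.inl (Subtype.ext h2)
          · exact Or.inr ((adj_iff _ _).2 h2)⟩
      rw [hu]
  obtain ⟨-, hlt, hcov⟩ := hK.main hn hs
  refine ⟨hK.power hcov, hlt, fun v => ?_⟩
  obtain ⟨c, hc, h1⟩ := hcov v
  refine ⟨c, ⟨hc, ?_⟩, ?_⟩
  · rcases h1 with h1 | h1
    · exact Or.inl h1
    · exact Or.inr ((adj_iff _ _).2 h1)
  · rintro c' ⟨hc', h2⟩
    refine hK.uniq' v c' c hc' hc ?_ h1
    rcases h2 with h2 | h2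
    · exact Or.inl h2
    · exact Or.inr ((adj_iff _ _).1 h2)

end Pool.Agent.Results.MP_87e4a0_co.OnlyHypercubeCodes
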